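import Pool.Agent.Y552.Conj.Code

set_option autoImplicit false

/-! Computability of the conditions. -/

namespace Pool.Agent.Y552.Conj

open Primrec

variable {α : Type} [Primcodable α]

abbrev W (α : Type) := List α

theorem r_len : PrimrecRel fun (y x : W α) => y.length ≤ x.length :=
  Primrec.nat_le.comp (list_length.comp fst) (list_length.comp snd)

theorem r_len' : PrimrecRel fun (y x : W α) => x.length ≤ y.length :=
  Primrec.nat_le.comp (list_length.comp snd) (list_length.comp fst)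

theorem r_half {R : W α → W α → Prop} (hR : PrimrecRel R) :
    PrimrecRel fun (X Y : List (W α)) => ∀ x ∈ X, ∃ y ∈ Y, R y x := by
  have h1 : PrimrecRel fun (Y : List (W α)) (x : W α) => ∃ y ∈ Y, R y x := hR.exists_mem_list
  have h2 : PrimrecRel fun (x : W α) (Y : List (W α)) => ∃ y ∈ Y, R y x :=
    h1.comp snd fst
  exact h2.forall_mem_list

theorem C1_pr : PrimrecPred fun p : List (W α) × List (W α) => C1 p.1 p.2 := by
  unfold C1
  exact ((r_half r_len).comp fst snd).and ((r_half r_len).comp snd fst)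

theorem C2_pr : PrimrecPred fun p : List (W α) × List (W α) => C2 p.1 p.2 := by
  unfold C2
  exact C1_pr.and (((r_half r_len').comp fst snd).and ((r_half r_len').comp snd fst))

/-- the list `Z` solves the equation -/
def Chk (X Y Z : List (W α)) : Prop :=
  Z ≠ [] ∧ (∀ x ∈ X, ∀ z ∈ Z, ∃ z' ∈ Z, ∃ y ∈ Y, x ++ z = z' ++ y) ∧
    (∀ y ∈ Y, ∀ z ∈ Z, ∃ z' ∈ Z, ∃ x ∈ X, z ++ y = x ++ z')

theorem r_inc {R : W α → (W α × W α) × W α → Prop} (hR : PrimrecRel R) :
    PrimrecRel fun (X : List (W α)) (b : List (W α) × List (W α)) =>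
      ∀ x ∈ X, ∀ z ∈ b.2, ∃ z' ∈ b.2, ∃ y ∈ b.1, R y ((x, z), z') := by
  have h1 : PrimrecRel fun (Y : List (W α)) (b : (W α × W α) × W α) => ∃ y ∈ Y, R y b :=
    hR.exists_mem_list
  have h2 : PrimrecRel fun (z' : W α) (b : (W α × W α) × List (W α)) =>
      ∃ y ∈ b.2, R y (b.1, z') :=
    h1.comp (snd.comp snd) (pair (fst.comp snd) fst)
  have h3 : PrimrecRel fun (Z : List (W α)) (b : (W α × W α) × List (W α)) =>
      ∃ z' ∈ Z, ∃ y ∈ b.2, R y (b.1, z') := h2.exists_mem_list
  have h4 : PrimrecRel fun (z : W α) (b : W α × (List (W α) × List (W α))) =>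
      ∃ z' ∈ b.2.2, ∃ y ∈ b.2.1, R y ((b.1, z), z') :=
    h3.comp (snd.comp (snd.comp snd)) (pair (pair (fst.comp snd) fst) (fst.comp (snd.comp snd)))
  have h5 : PrimrecRel fun (Z : List (W α)) (b : W α × (List (W α) × List (W α))) =>
      ∀ z ∈ Z, ∃ z' ∈ b.2.2, ∃ y ∈ b.2.1, R y ((b.1, z), z') := h4.forall_mem_list
  have h6 : PrimrecRel fun (x : W α) (b : List (W α) × List (W α)) =>
      ∀ z ∈ b.2, ∃ z' ∈ b.2, ∃ y ∈ b.1, R y ((x, z), z') :=
    h5.comp (snd.comp snd) (pair fst snd)
  exact h6.forall_mem_list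

theorem Chk_pr : PrimrecPred fun p : (List (W α) × List (W α)) × List (W α) =>
    Chk p.1.1 p.1.2 p.2 := by
  unfold Chk
  have e1 : PrimrecRel fun (y : W α) (b : (W α × W α) × W α) => b.1.1 ++ b.1.2 = b.2 ++ y :=
    Primrec.eq.comp (list_append.comp (fst.comp (fst.comp snd)) (snd.comp (fst.comp snd)))
      (list_append.comp (snd.comp snd) fst)
  have e2 : PrimrecRel fun (x : W α) (b : (W α × W α) × W α) => b.1.2 ++ b.1.1 = x ++ b.2 :=
    Primrec.eq.comp (list_append.comp (snd.comp (fst.comp snd)) (fst.comp (fst.comp snd)))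
      (list_append.comp fst (snd.comp snd))
  refine PrimrecPred.and ?_ (PrimrecPred.and ?_ ?_)
  · exact PrimrecPred.not (Primrec.eq.comp snd (const []))
  · exact (r_inc e1).comp (fst.comp fst) (pair (snd.comp fst) snd)
  · exact (r_inc e2).comp (snd.comp fst) (pair (fst.comp fst) snd)

/-- the pairs with a finite solution are recursively enumerable -/
theorem re_fin : REPred fun p : List (W α) × List (W α) =>
    ([] ∉ p.1 ∧ [] ∉ p.2) ∧ ∃ Z : List (W α), Chk p.1 p.2 Z := by
  classical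
  have h0 : PrimrecPred fun p : (List (W α) × List (W α)) × ℕ =>
      ([] ∉ p.1.1 ∧ [] ∉ p.1.2) ∧
        Chk p.1.1 p.1.2 ((Encodable.decode (α := List (W α)) p.2).getD []) := by
    have hm : PrimrecPred fun L : List (W α) => [] ∉ L := by
      have h1 : PrimrecPred fun L : List (W α) => ∃ w ∈ L, w = [] :=
        PrimrecPred.exists_mem_list (Primrec.eq.comp Primrec.id (const []))
      refine h1.not.of_eq ?_
      intro L
      simp
    refine PrimrecPred.and ((hm.comp (fst.comp fst)).and (hm.comp (snd.comp fst))) ?_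
    exact Chk_pr.comp (pair fst (option_getD.comp (Primrec.decode.comp snd) (const [])))
  obtain ⟨d, hd⟩ := h0
  have h1 : Partrec fun p : List (W α) × List (W α) => Nat.rfind fun n =>
      Part.some (decide (([] ∉ p.1 ∧ [] ∉ p.2) ∧
        Chk p.1 p.2 ((Encodable.decode (α := List (W α)) n).getD []))) := by
    refine Partrec.rfind ?_
    refine Computable.partrec ?_
    refine hd.to_comp.of_eq ?_
    intro p
    exact decide_eq_decide.2 Iff.rfl
  refine (Partrec.dom_re h1).of_eq ?_
  intro p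
  have h3 := Nat.rfind_dom (p := fun n => Part.some (decide (([] ∉ p.1 ∧ [] ∉ p.2) ∧
        Chk p.1 p.2 ((Encodable.decode (α := List (W α)) n).getD []))))
  refine Iff.trans h3 ?_
  constructor
  · rintro ⟨n, hn, _⟩
    have hn1 := of_decide_eq_true (Part.mem_some_iff.1 hn).symm
    exact ⟨hn1.1, _, hn1.2⟩
  · rintro ⟨h2, Z, hZ⟩
    refine ⟨Encodable.encode Z, ?_, fun _ => trivial⟩
    refine Part.mem_some_iff.2 ?_
    symm
    rw [decide_eq_true_eq, Encodable.encodek]
    exact ⟨h2, hZ⟩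

end Pool.Agent.Y552.Conj
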