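import Mathlib

set_option autoImplicit false

/-! Coding of letters by the words `1^i 0`, and one-letter alphabets. -/

namespace Pool.Agent.Y552.Conj

section Code

variable {α : Type} (o t : α)

/-- the code word of the letter `i` -/
def h (i : ℕ) : List α := List.replicate i o ++ [t]

/-- the code of a word -/
def hw (l : List ℕ) : List α := l.flatMap (h o t)

theorem hw_append (l m : List ℕ) : hw o t (l ++ m) = hw o t l ++ hw o t m := by
  simp [hw]

theorem hw_cons (i : ℕ) (l : List ℕ) : hw o t (i :: l) = List.replicate i o ++ t :: hw o t l := by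
  simp [hw, h]

theorem length_hw (l : List ℕ) : l.length ≤ (hw o t l).length := by
  induction l with
  | nil => simp
  | cons i l ih =>
    rw [hw_cons]
    simp only [List.length_cons, List.length_append, List.length_replicate]
    omega

variable {o t}

theorem rep_inj (hot : o ≠ t) (i j : ℕ) (u v : List α)
    (he : List.replicate i o ++ t :: u = List.replicate j o ++ t :: v) : i = j ∧ u = v := by
  induction i generalizing j with
  | zero =>
    cases j with
    | zero => simpa using he
    | succ j =>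
      rw [List.replicate_succ] at he
      simp only [List.replicate_zero, List.nil_append, List.cons_append, List.cons.injEq] at he
      exact absurd he.1.symm hot
  | succ i ih =>
    cases j with
    | zero =>
      rw [List.replicate_succ] at he
      simp only [List.replicate_zero, List.nil_append, List.cons_append, List.cons.injEq] at he
      exact absurd he.1 hot
    | succ j =>
      rw [List.replicate_succ, List.replicate_succ] at he
      simp only [List.cons_append, List.cons.injEq, true_and] at he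
      obtain ⟨h1, h2⟩ := ih j he
      exact ⟨by omega, h2⟩

theorem hw_inj (hot : o ≠ t) (l m : List ℕ) (he : hw o t l = hw o t m) : l = m := by
  induction l generalizing m with
  | nil =>
    cases m with
    | nil => rfl
    | cons j m =>
      rw [hw_cons] at he
      simp [hw] at he
  | cons i l ih =>
    cases m with
    | nil =>
      rw [hw_cons] at he
      simp [hw] at he
    | cons j m =>
      rw [hw_cons, hw_cons] at he
      obtain ⟨h1, h2⟩ := rep_inj hot i j _ _ he
      rw [h1, ih m h2]

/-- the ends of code words are code words -/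
theorem suf (v : List ℕ) : ∀ w : List α, w <:+ hw o t v → ∃ z, w = hw o t z := by
  induction v with
  | nil =>
    intro w hwv
    refine ⟨[], ?_⟩
    simpa [hw] using hwv
  | cons i v ih =>
    intro w hwv
    rw [hw_cons] at hwv
    induction i with
    | zero =>
      rw [List.replicate_zero, List.nil_append] at hwv
      rcases List.suffix_cons_iff.1 hwv with rfl | h1
      · exact ⟨0 :: v, by rw [hw_cons]; simp⟩
      · exact ih w h1
    | succ i ih2 =>
      rw [List.replicate_succ, List.cons_append] at hwv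
      rcases List.suffix_cons_iff.1 hwv with rfl | h1
      · refine ⟨(i + 1) :: v, ?_⟩
        rw [hw_cons, List.replicate_succ, List.cons_append]
      · exact ih2 h1

/-- all words of a solution are codes -/
theorem range_of_sol (x0 : List ℕ) (X Y : List (List ℕ)) (hx0 : x0 ∈ X) (hY : ∀ y ∈ Y, y ≠ [])
    (W : Set (List α))
    (hW : ∀ x ∈ X, ∀ w ∈ W, ∃ w' ∈ W, ∃ y ∈ Y, hw o t x ++ w = w' ++ hw o t y) :
    ∀ w ∈ W, ∃ z, w = hw o t z := by
  have key : ∀ n : ℕ, ∀ w ∈ W, ∃ u, ∃ w' ∈ W, ∃ v : List ℕ, n ≤ v.length ∧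
      u ++ w = w' ++ hw o t v := by
    intro n
    induction n with
    | zero =>
      intro w hw1
      exact ⟨[], w, hw1, [], le_rfl, by simp [hw]⟩
    | succ n ih =>
      intro w hw1
      obtain ⟨u, w', hw', v, hv, he⟩ := ih w hw1
      obtain ⟨w'', hw'', y, hy, he2⟩ := hW x0 hx0 w' hw'
      refine ⟨hw o t x0 ++ u, w'', hw'', y ++ v, ?_, ?_⟩
      · have : 0 < y.length := List.length_pos_iff.2 (hY y hy)
        rw [List.length_append]
        omega
      · rw [List.append_assoc, he, ← List.append_assoc, he2, hw_append, List.append_assoc]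
  intro w hw1
  obtain ⟨u, w', hw', v, hv, he⟩ := key w.length w hw1
  refine suf v w ?_
  have h1 : w <:+ w' ++ hw o t v := ⟨u, he⟩
  have h2 : hw o t v <:+ w' ++ hw o t v := ⟨w', rfl⟩
  exact List.suffix_of_suffix_length_le h1 h2 (hv.trans (length_hw o t v))

/-- solutions for the codes give solutions -/
theorem decode_sol (hot : o ≠ t) (x0 : List ℕ) (X Y : List (List ℕ)) (hx0 : x0 ∈ X)
    (hY : ∀ y ∈ Y, y ≠ []) (W : Set (List α)) (hne : W.Nonempty)
    (hW : ∀ x ∈ X, ∀ w ∈ W, ∃ w' ∈ W, ∃ y ∈ Y, hw o t x ++ w = w' ++ hw o t y) :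
    ∃ Z : Set (List ℕ), Z.Nonempty ∧
      ∀ x ∈ X, ∀ z ∈ Z, ∃ z' ∈ Z, ∃ y ∈ Y, x ++ z = z' ++ y := by
  have h1 := range_of_sol x0 X Y hx0 hY W hW
  refine ⟨{z | hw o t z ∈ W}, ?_, ?_⟩
  · obtain ⟨w, hw1⟩ := hne
    obtain ⟨z, rfl⟩ := h1 w hw1
    exact ⟨z, hw1⟩
  · intro x hx z hz
    obtain ⟨w', hw', y, hy, he⟩ := hW x hx _ hz
    obtain ⟨z', rfl⟩ := h1 w' hw'
    refine ⟨z', hw', y, hy, ?_⟩
    rw [← hw_append, ← hw_append] at he
    exact hw_inj hot _ _ he

theorem hw_pr {α : Type} [Primcodable α] (o t : α) : Primrec (hw o t) := by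
  refine Primrec.list_flatMap Primrec.id ?_
  have h1 : Primrec fun i : ℕ => (List.range i).map (fun _ => o) :=
    Primrec.list_map Primrec.list_range (Primrec.const o).to₂
  have h2 : Primrec fun i : ℕ => (List.range i).map (fun _ => o) ++ [t] :=
    Primrec.list_append.comp h1 (Primrec.const [t])
  have h3 : Primrec (h o t) := h2.of_eq (fun i => by simp [h])
  exact h3.comp Primrec.snd

end Code

section One

/-- words over an alphabet with at most one letter are given by their lengths -/
theorem eq_of_len {α : Type} [Subsingleton α] (u v : List α) (he : u.length = v.length) :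
    u = v := by
  induction u generalizing v with
  | nil => exact (List.length_eq_zero_iff.1 he.symm).symm
  | cons a u ih =>
    cases v with
    | nil => simp at he
    | cons b v =>
      rw [Subsingleton.elim a b, ih v (by simpa using he)]

variable {α : Type}

/-- the least lengths agree -/
def C1 (X Y : List (List α)) : Prop :=
  (∀ x ∈ X, ∃ y ∈ Y, y.length ≤ x.length) ∧ (∀ y ∈ Y, ∃ x ∈ X, x.length ≤ y.length)

/-- the least and the greatest lengths agree -/
def C2 (X Y : List (List α)) : Prop :=
  C1 X Y ∧ (∀ x ∈ X, ∃ y ∈ Y, x.length ≤ y.length) ∧ (∀ y ∈ Y, ∃ x ∈ X, y.length ≤ x.length)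

theorem C1_of_eq (X Y : List (List α)) (Z : Set (List α)) (hne : Z.Nonempty)
    (h1 : ∀ x ∈ X, ∀ z ∈ Z, ∃ z' ∈ Z, ∃ y ∈ Y, x ++ z = z' ++ y)
    (h2 : ∀ y ∈ Y, ∀ z ∈ Z, ∃ z' ∈ Z, ∃ x ∈ X, z ++ y = x ++ z') : C1 X Y := by
  classical
  obtain ⟨z0, hz0, hmin⟩ : ∃ z0 ∈ Z, ∀ z ∈ Z, z0.length ≤ z.length := by
    have hex : ∃ n, ∃ z ∈ Z, z.length = n := by
      obtain ⟨z, hz⟩ := hne
      exact ⟨_, z, hz, rfl⟩
    obtain ⟨z0, hz0, hl⟩ := Nat.find_spec hex
    refine ⟨z0, hz0, fun z hz => ?_⟩
    rw [hl]
    exact Nat.find_min' hex ⟨z, hz, rfl⟩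
  constructor
  · intro x hx
    obtain ⟨z', hz', y, hy, he⟩ := h1 x hx z0 hz0
    have h3 := congrArg List.length he
    rw [List.length_append, List.length_append] at h3
    have := hmin z' hz'
    exact ⟨y, hy, by omega⟩
  · intro y hy
    obtain ⟨z', hz', x, hx, he⟩ := h2 y hy z0 hz0
    have h3 := congrArg List.length he
    rw [List.length_append, List.length_append] at h3
    have := hmin z' hz'
    exact ⟨x, hx, by omega⟩

theorem C2_of_eq (X Y : List (List α)) (Z : Set (List α)) (hfin : Z.Finite) (hne : Z.Nonempty)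
    (h1 : ∀ x ∈ X, ∀ z ∈ Z, ∃ z' ∈ Z, ∃ y ∈ Y, x ++ z = z' ++ y)
    (h2 : ∀ y ∈ Y, ∀ z ∈ Z, ∃ z' ∈ Z, ∃ x ∈ X, z ++ y = x ++ z') : C2 X Y := by
  refine ⟨C1_of_eq X Y Z hne h1 h2, ?_⟩
  obtain ⟨z0, hz0, hmax⟩ := Set.exists_max_image Z List.length hfin hne
  constructor
  · intro x hx
    obtain ⟨z', hz', y, hy, he⟩ := h1 x hx z0 hz0
    have h3 := congrArg List.length he
    rw [List.length_append, List.length_append] at h3
    have := hmax z' hz'
    exact ⟨y, hy, by omega⟩
  · intro y hy
    obtain ⟨z', hz', x, hx, he⟩ := h2 y hy z0 hz0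
    have h3 := congrArg List.length he
    rw [List.length_append, List.length_append] at h3
    have := hmax z' hz'
    exact ⟨x, hx, by omega⟩

variable [Subsingleton α]

theorem split_len (w y : List α) (h : y.length ≤ w.length) :
    w = w.take (w.length - y.length) ++ y := by
  apply eq_of_len
  rw [List.length_append, List.length_take]
  omega

theorem split_len' (w x : List α) (h : x.length ≤ w.length) :
    w = x ++ w.take (w.length - x.length) := by
  apply eq_of_len
  rw [List.length_append, List.length_take]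
  omega

/-- a finite solution over one letter -/
theorem sol_of_C2 (X Y : List (List α)) (hC : C2 X Y) : ∃ N : ℕ,
    (∀ x ∈ X, ∀ z : List α, z.length ≤ N → ∃ z' : List α, z'.length ≤ N ∧
      ∃ y ∈ Y, x ++ z = z' ++ y) ∧
    (∀ y ∈ Y, ∀ z : List α, z.length ≤ N → ∃ z' : List α, z'.length ≤ N ∧
      ∃ x ∈ X, z ++ y = x ++ z') := by
  obtain ⟨⟨c1, c2⟩, c3, c4⟩ := hC
  have hb : ∀ L : List (List α), ∃ N : ℕ, ∀ w ∈ L, w.length ≤ N := by
    intro L
    refine ⟨(L.map List.length).sum, fun w hw => ?_⟩
    exact List.single_le_sum (by simp) _ (List.mem_map.2 ⟨w, hw, rfl⟩)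
  obtain ⟨N1, hN1⟩ := hb X
  obtain ⟨N2, hN2⟩ := hb Y
  refine ⟨N1 + N2, ?_, ?_⟩
  · intro x hx z hz
    obtain ⟨y1, hy1, hl1⟩ := c1 x hx
    obtain ⟨y2, hy2, hl2⟩ := c3 x hx
    have hw : (x ++ z).length = x.length + z.length := List.length_append
    by_cases hc : y2.length ≤ (x ++ z).length
    · refine ⟨_, ?_, y2, hy2, split_len _ _ hc⟩
      rw [List.length_take]
      omega
    · refine ⟨_, ?_, y1, hy1, split_len _ _ (by omega)⟩
      rw [List.length_take]
      have := hN2 y2 hy2
      omega
  · intro y hy z hz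
    obtain ⟨x1, hx1, hl1⟩ := c2 y hy
    obtain ⟨x2, hx2, hl2⟩ := c4 y hy
    have hw : (z ++ y).length = z.length + y.length := List.length_append
    by_cases hc : x2.length ≤ (z ++ y).length
    · refine ⟨_, ?_, x2, hx2, split_len' _ _ hc⟩
      rw [List.length_take]
      omega
    · refine ⟨_, ?_, x1, hx1, split_len' _ _ (by omega)⟩
      rw [List.length_take]
      have := hN1 x2 hx2
      omega

end One

end Pool.Agent.Y552.Conj
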