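import Pool.Agent.H390R3.Cj.FinalB

set_option autoImplicit false

/-! A universal source machine, and the reduction of every recursively enumerable predicate. -/

namespace Pool.Agent.Y552.Conj

open Pool.Agent.Helper948.Erode Pool.Agent.Helper948.Conj
open Turing
open Turing.PartrecToTM2 (trNat)

/-- A fixed finite counter machine whose halting problem is that of the universal function. -/
theorem exists_sysU : ∃ (Q : Type) (_ : Finite Q) (M : Sys Q Bool) (q0 : Q) (N : ℕ → ℕ),
    Computable N ∧ ∀ n, (M.Halts (some q0) (ini (N n)) ↔ (u n).Dom) := by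
  classical
  obtain ⟨Λ, i1, i2, M, hM⟩ := exists_machine
  have fK : Finite PartrecToTM2.K' := by
    refine Finite.of_injective (fun k : PartrecToTM2.K' => match k with
      | .main => (0 : Fin 4) | .rev => 1 | .aux => 2 | .stack => 3) ?_
    intro a b h
    cases a <;> cases b <;> simp_all
  have fG : Finite (TM2to1.Γ' PartrecToTM2.K' (fun _ => PartrecToTM2.Γ')) :=
    inferInstanceAs (Finite (Bool × (PartrecToTM2.K' → Option PartrecToTM2.Γ')))
  let _ : Fintype (TM2to1.Γ' PartrecToTM2.K' (fun _ => PartrecToTM2.Γ')) := Fintype.ofFinite _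
  let N : ℕ → ℕ := fun n => enc (sym true .cons :: (trNat n).reverse.map (sym false))
  refine ⟨Λ, i2, sys M, default, N, ?_, ?_⟩
  · have h1 := digits_computable (fun a => kap (sym false a))
    have h2 : Computable (fun n : ℕ => ((trNat n).map (fun a => kap (sym false a))).reverse) :=
      Primrec.list_reverse.to_comp.comp h1
    have h3 := (foldr_computable
      (bas (TM2to1.Γ' PartrecToTM2.K' (fun _ => PartrecToTM2.Γ')))).comp h2
    have h4 : Computable (fun x : ℕ => kap (sym true .cons) +
        (bas (TM2to1.Γ' PartrecToTM2.K' (fun _ => PartrecToTM2.Γ'))) * x) :=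
      (Primrec.nat_add.comp (Primrec.const _)
        (Primrec.nat_mul.comp (Primrec.const _) Primrec.id)).to_comp
    refine (h4.comp h3).of_eq ?_
    intro n
    have e : ∀ l : List PartrecToTM2.Γ', enc (l.map (sym false)) =
        (l.map (fun a => kap (sym false a))).foldr (fun d acc => d +
          (bas (TM2to1.Γ' PartrecToTM2.K' (fun _ => PartrecToTM2.Γ'))) * acc) 0 := by
      intro l
      induction l with
      | nil => rfl
      | cons a l ih =>
        simp only [List.map_cons, enc, List.foldr_cons, ih]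
    simp only [N, enc]
    rw [e, List.map_reverse]
  · intro n
    rw [← hM n]
    apply halts_iff
    constructor
    · have := rep_enc (sym true .cons :: (trNat n).reverse.map (sym false))
      have e : (Tape.mk₁ (sym true PartrecToTM2.Γ'.cons :: (trNat n).reverse.map
          (sym false))).right₀ = ListBlank.mk (sym true .cons ::
            (trNat n).reverse.map (sym false)) := by
        unfold Tape.mk₁ Tape.mk₂
        rw [Tape.mk'_right₀]
      simp only [TM0.init, e]
      exact this
    · exact rep_zero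

/-- every recursively enumerable predicate reduces to the domain of `u` -/
theorem re_reduces {α : Type} [Primcodable α] (P : α → Prop) (hP : REPred P) :
    ∃ g : α → ℕ, Computable g ∧ ∀ a, ((u (g a)).Dom ↔ P a) := by
  have h1 : Partrec fun a : α => (Part.assert (P a) fun _ => Part.some ()).map fun _ => (0 : ℕ) :=
    hP.map (Computable.const 0).to₂
  have h2 : Nat.Partrec fun n : ℕ => ((Part.ofOption (Encodable.decode (α := α) n.unpair.1)).bind
      fun a => (Part.assert (P a) fun _ => Part.some ()).map fun _ => (0 : ℕ)) := by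
    refine Partrec.nat_iff.1 ?_
    refine Partrec.bind ?_ (h1.comp Computable.snd)
    refine Computable.ofOption ?_
    exact Computable.decode.comp (Computable.fst.comp Computable.unpair)
  obtain ⟨c, hc⟩ := Nat.Partrec.Code.exists_code.1 h2
  refine ⟨fun a => Encodable.encode (Nat.Partrec.Code.curry c (Encodable.encode a)), ?_, ?_⟩
  · exact Computable.encode.comp (Nat.Partrec.Code.primrec₂_curry.to_comp.comp
      (Computable.const c) Computable.encode)
  · intro a
    simp only [u, Denumerable.ofNat_encode, Nat.Partrec.Code.eval_curry, hc, Nat.unpair_pair,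
      Encodable.encodek, Part.coe_some, Part.bind_some]
    constructor
    · rintro ⟨h, _⟩
      exact h
    · intro h
      exact ⟨h, trivial⟩

/-- The reduction: a word `x` and a finite set `Y`, computable from `n`. -/
theorem reductionU : ∃ (x : ℕ → List ℕ) (Y : ℕ → List (List ℕ)),
    Computable x ∧ Computable Y ∧ (∀ n, x n ≠ []) ∧ (∀ n, ∀ w ∈ Y n, w ≠ []) ∧
    (∀ n, (u n).Dom → ∃ Z : Set (List ℕ), Z.Finite ∧ Z.Nonempty ∧
      {w | ∃ x' ∈ x n :: Y n, ∃ z ∈ Z, w = x' ++ z} =
        {w | ∃ z ∈ Z, ∃ y ∈ Y n, w = z ++ y}) ∧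
    (∀ n, ¬ (u n).Dom → ∀ Z : Set (List ℕ), Z.Nonempty →
      (∀ x' ∈ x n :: Y n, ∀ z ∈ Z, ∃ z' ∈ Z, ∃ y ∈ Y n, x' ++ z = z' ++ y) → False) := by
  obtain ⟨Q, hQ, M, q0, N, hN, hU⟩ := exists_sysU
  obtain ⟨nK, ⟨e⟩⟩ := Finite.exists_equiv_fin (Q × (Bool → Fin M.B))
  let D := datOf M q0 e
  have hx : Primrec fun n : ℕ => (0 :: D.poB n D.stc : List ℕ) := by
    have h1 : Primrec fun n : ℕ => ((D.XLB n).head?).getD [] :=
      Primrec.option_getD.comp (Primrec.list_head?.comp D.XLB_pr) (Primrec.const [])
    refine h1.of_eq ?_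
    intro n
    rfl
  refine ⟨fun n => 0 :: D.poB (N n) D.stc, fun n => D.YLB (N n), hx.to_comp.comp hN,
    D.YLB_pr.to_comp.comp hN, fun n => by simp, fun n w h => mem_YLB_ne D _ w h, ?_, ?_⟩
  · intro n hP
    obtain ⟨Z, h1, h2, _, h4⟩ :=
      exists_solutionB D (N n) (fun hr => not_halts_of_run M q0 e _ hr ((hU n).2 hP))
    exact ⟨Z, h1, h2, h4⟩
  · intro n hP Z hne hZ
    exact no_solution_listsB D (N n) (run_of_not_halts M q0 e _ (fun h => hP ((hU n).1 h)))
      Z hne hZ

end Pool.Agent.Y552.Conj
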